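import Pool.Agent.Y204.TP.Poly

/-!
# The type of `S / IJ` when `S / (I + J)` is Gorenstein

`S = k[x_1, …, x_n]`, `k` of characteristic zero, `deg x_i = w_i > 0`, `𝔪` the ideal of the variables.
Let `I`, `J` be ideals of `S`, `y_0, …, y_{d-1} ∈ 𝔪` and suppose that `IJ + (y)` contains a power of
`𝔪`. If `S / IJ` is Cohen–Macaulay and `y` is a maximal regular sequence on it, the type of `S / IJ`
is the dimension of the socle of `S / (IJ + (y))`, and `ht (IJ) = n - d`.

1. The type is at least the height if there are ideals `IJ ⊆ a ⊆ G` with `I + J ⊆ G ⊆ 𝔪`,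
   `G a ⊆ IJ`, such that `a` is homogeneous and a reduction of `G`, `y` is regular on `S / a`, and
   `S / (G + (y))` is Gorenstein (its socle has dimension one).
2. In particular it is if `I`, `J` are homogeneous, `I ∩ J` is a reduction of `I + J`, `y` is regular
   on `S / (I ∩ J)` and `S / (I + J + (y))` is Gorenstein.
3. In particular, if `S / I` is an artinian Gorenstein graded algebra, the type of `S / I²` is at
   least `n`.
-/

set_option autoImplicit false

open MvPolynomial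

namespace Pool.Agent.Results.MP_8f10f1_al.GorensteinSum

open Pool.Agent.Y204.TP

theorem result {k : Type} [Field k] [CharZero k] {n : ℕ} (w : Fin n → ℕ) (hw : ∀ i, 0 < w i) :
    (∀ (I J : Ideal (MvPolynomial (Fin n) k)) (y : ℕ → MvPolynomial (Fin n) k) (d c : ℕ),
      (∀ j < d, y j ∈ idealOfVars (Fin n) k) →
      idealOfVars (Fin n) k ^ c ≤ I * J ⊔ seqIdeal y d →
      (∀ (a G : Ideal (MvPolynomial (Fin n) k)) (N : ℕ), IsHomog w a →
        I ≤ G → J ≤ G → G ≤ idealOfVars (Fin n) k → I * J ≤ a → a ≤ G → G * a ≤ I * J →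
        G ^ (N + 1) ≤ a * G ^ N → IsRegOn a y d →
        Module.finrank k (socle k (idealOfVars (Fin n) k) (G ⊔ seqIdeal y d)) = 1 →
        n ≤ Module.finrank k (socle k (idealOfVars (Fin n) k) (I * J ⊔ seqIdeal y d)) + d) ∧
      (∀ N : ℕ, IsHomog w I → IsHomog w J →
        I ≤ idealOfVars (Fin n) k → J ≤ idealOfVars (Fin n) k →
        (I ⊔ J) ^ (N + 1) ≤ (I ⊓ J) * (I ⊔ J) ^ N → IsRegOn (I ⊓ J) y d →
        Module.finrank k (socle k (idealOfVars (Fin n) k) (I ⊔ J ⊔ seqIdeal y d)) = 1 →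
        n ≤ Module.finrank k (socle k (idealOfVars (Fin n) k) (I * J ⊔ seqIdeal y d)) + d)) ∧
    (∀ (I : Ideal (MvPolynomial (Fin n) k)) (c : ℕ), IsHomog w I →
      idealOfVars (Fin n) k ^ c ≤ I → I ≤ idealOfVars (Fin n) k →
      Module.finrank k (socle k (idealOfVars (Fin n) k) I) = 1 →
      n ≤ Module.finrank k (socle k (idealOfVars (Fin n) k) (I * I))) := by
  have key : ∀ (I J : Ideal (MvPolynomial (Fin n) k)) (y : ℕ → MvPolynomial (Fin n) k) (d c : ℕ),
      (∀ j < d, y j ∈ idealOfVars (Fin n) k) →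
      idealOfVars (Fin n) k ^ c ≤ I * J ⊔ seqIdeal y d →
      (∀ N : ℕ, IsHomog w I → IsHomog w J →
        I ≤ idealOfVars (Fin n) k → J ≤ idealOfVars (Fin n) k →
        (I ⊔ J) ^ (N + 1) ≤ (I ⊓ J) * (I ⊔ J) ^ N → IsRegOn (I ⊓ J) y d →
        Module.finrank k (socle k (idealOfVars (Fin n) k) (I ⊔ J ⊔ seqIdeal y d)) = 1 →
        n ≤ Module.finrank k (socle k (idealOfVars (Fin n) k) (I * J ⊔ seqIdeal y d)) + d) := by
    intro I J y d c hy hc N hI hJ hIm hJm hred hreg hgor
    refine main w hw I J (I ⊔ J) (I ⊓ J) (fun f hf e => ⟨hI f hf.1 e, hJ f hf.2 e⟩) le_sup_left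
      le_sup_right (sup_le hIm hJm) Ideal.mul_le_inf (inf_le_left.trans le_sup_left) ?_ hred y hy
      hreg hc hgor
    rw [Ideal.sup_mul]
    refine sup_le (Ideal.mul_mono_right inf_le_right) ?_
    rw [mul_comm]
    exact Ideal.mul_mono_left inf_le_left
  refine ⟨fun I J y d c hy hc => ⟨fun a G N ha h1 h2 h3 h4 h5 h6 h7 h8 h9 =>
    main w hw I J G a ha h1 h2 h3 h4 h5 h6 h7 y hy h8 hc h9, key I J y d c hy hc⟩, ?_⟩
  intro I c hI hc hIm hgor
  have h0 : seqIdeal (fun _ => (0 : MvPolynomial (Fin n) k)) 0 = ⊥ := by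
    rw [seqIdeal]
    simp
  have h1 := key I I (fun _ => 0) 0 (c * 2) (fun j hj => absurd hj (Nat.not_lt_zero j)) (by
      rw [h0, sup_bot_eq, pow_mul, pow_two]
      exact Ideal.mul_mono hc hc) 1 hI hI hIm hIm (by
      rw [sup_idem, inf_idem, pow_succ, pow_one]) (fun j hj => absurd hj (Nat.not_lt_zero j)) (by
      rw [sup_idem, h0, sup_bot_eq]
      exact hgor)
  rw [h0, sup_bot_eq, Nat.add_zero] at h1
  exact h1

end Pool.Agent.Results.MP_8f10f1_al.GorensteinSum
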